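import Pool.Agent.MWA.StmtsB

namespace Pool.Agent.MWA.H15

open Pool.Agent.Helper14_MV Pool.Agent.Helper2_MV Pool.Agent.MVO Pool.Agent.MWL Pool.Agent.MWS

theorem rb4 (h1 : Pool.Agent.MWL.TrnStmt) (h2 : Pool.Agent.MWA.UseStmt)
    (h3 : Pool.Agent.MWA.AbuStmt) (h4 : Pool.Agent.MWA.BtfStmt) (h5 : Pool.Agent.MWA.BtaStmt)
    (h6 : Pool.Agent.MWA.HvdStmt) (h7 : Pool.Agent.MWA.MvaStmt) (h8 : Pool.Agent.MWA.EqvStmt)
    (h9 : Pool.Agent.MWA.RdcStmt) : Pool.Agent.MWA.Rb4Stmt := by
  intro β hb hrd hA1 hP hJ0 hJ1 hC θ hle hnc k a b i j hda hdb hLa hLb hji hAj hnj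
  rcases h9 β hb hA1 hP hJ0 θ hle k a b i j hda hdb hLa hLb hji hAj with h | ⟨hjlt, ⟨s, hsi, hAs⟩, p, hT⟩
  · exact Or.inl h
  obtain ⟨hpi, hik, hbr⟩ := hT
  by_cases hp : AbF θ k a p
  · left
    have hB : Bt β k b (a2 a p) i := by
      refine (h2 β hb.cl).1 1 1 2 1 k p i b (a2 a p) one_pos one_pos le_rfl (by norm_num) hC hpi.le
        hik ?_ ?_
      · intro t ht
        rw [hbr t ht]
        by_cases h1t : t = p
        · have h2t : t ≠ i := by omega
          simp [h1t, hpi.ne]
        · by_cases h2t : t = i
          · simp [h2t, hpi.ne']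
          · simp [h1t, h2t]
      · intro t ht
        show _ ≤ a t + if t = p then 2 else 0
        have h3t : (if t = i then 1 else 0) ≤ a t := by
          by_cases h2t : t = i
          · rw [if_pos h2t, h2t]
            exact Nat.one_le_iff_ne_zero.2 hLa.2.1
          · rw [if_neg h2t]
            exact Nat.zero_le _
        omega
    have hB2 : Bt θ k (a2 a p) b i := Bt.mono hle ((h5 β hb).2.1 k b (a2 a p) i hB)
    exact (h4 θ k a (a2 a p) b b hp (RR.refl _)).2 i hB2
  · right
    have hjp : j ≠ p := by
      rintro rfl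
      exact hp hAj
    have hAsθ : AbF θ k a s := AbF.mono hle hAs
    have hsp : s ≠ p := by
      rintro rfl
      exact hp hAsθ
    have haj : a j = 0 := by
      by_contra haj
      apply hnj
      rcases le_or_gt j s with hjs | hjs
      · exact h6 β hrd k a j s hjs (hsi.le.trans hik) haj hAs
      · have hx := (h3 β).2 1 1 1 k s j i 1 (a2 a s) (by norm_num) hJ1 hjs.le hji hik ?_
        · have e : (if (1 : ℕ) = 0 then s else if (1 : ℕ) = 1 then j else i) = j := by simp
          rw [e] at hx
          exact ((h1 1 (FC.ofFIC β) k a j).1 (a2 a s) hAs).2 hx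
        · intro t ht
          show _ ≤ a t + if t = s then 2 else 0
          have hai := hLa.2.1
          by_cases h1t : t = s
          · have h2t : t ≠ j := by omega
            have h3t : t ≠ i := by omega
            simp [h1t, hjs.ne, hsi.ne]
          · by_cases h2t : t = j
            · subst h2t
              have h3t : t ≠ i := by omega
              simp [h1t, h3t]
              omega
            · by_cases h3t : t = i
              · subst h3t
                simp [h1t, h2t]
                omega
              · simp [h1t, h2t, h3t]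
    have hside : (j < p ∧ s < p) ∨ (p < j ∧ p < s) := by
      by_contra hcon
      apply hp
      refine h7 θ (hb.mono hle).ap k a j p s ?_ (hji.trans hik) (hsi.le.trans hik) haj hAj hAsθ
      omega
    intro θ' hle' hB
    refine h8 β hb k a b i j s hda hdb hLa hLb hjlt hsi.le hAs ?_ θ' hle' hB
    intro r hr hrs
    have hr1 : r ≠ p := by omega
    have hr2 : r < i := by omega
    rw [hbr r (hr2.le.trans hik)]
    simp [hr1, hr2.ne]

end Pool.Agent.MWA.H15
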